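import Pool.Agent.Helper52.BP.Sheet

/-! # Row CUT -/

set_option autoImplicit false

namespace Pool.Helper52.BP

open Finset

section cut
variable {n V : ℕ}

theorem cut_st_add (B : BP n V) (z : Fin n → Bool) (a k : ℕ) :
    B.st z (a + k) = (B.step z)^[k] (B.st z a) := by
  unfold BP.st
  rw [← Function.iterate_add_apply, Nat.add_comm]

/-- the run of length `k` from `v` reads only variables in `A` -/
def cgood (B : BP n V) (A : Fin n → Prop) (z : Fin n → Bool) (v : Fin V) (k : ℕ) : Prop :=
  ∀ t < k, ∀ x, B.lab ((B.step z)^[t] v) = some x → A x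

theorem cut_run (B : BP n V) (A : Fin n → Prop) (z z' : Fin n → Bool)
    (h : ∀ x, A x → z x = z' x) (v : Fin V) (k : ℕ) (hg : cgood B A z v k) :
    ∀ t ≤ k, (B.step z)^[t] v = (B.step z')^[t] v := by
  intro t
  induction t with
  | zero => intro _; rfl
  | succ t ih =>
    intro ht
    rw [Function.iterate_succ_apply', Function.iterate_succ_apply', ← ih (by omega)]
    have hx := hg t (by omega)
    unfold BP.step at hx ⊢
    split
    · rfl
    · rename_i x hx'
      rw [h x (hx x hx')]

theorem cut_good (B : BP n V) (A : Fin n → Prop) (z z' : Fin n → Bool)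
    (h : ∀ x, A x → z x = z' x) (v : Fin V) (k : ℕ) (hg : cgood B A z v k) :
    cgood B A z' v k := by
  intro t ht x hx
  rw [← cut_run B A z z' h v k hg t ht.le] at hx
  exact hg t ht x hx

theorem cut_iff (B : BP n V) (A : Fin n → Prop) (z z' : Fin n → Bool)
    (h : ∀ x, A x → z x = z' x) (v w : Fin V) (k : ℕ) :
    (cgood B A z v k ∧ (B.step z)^[k] v = w) ↔ (cgood B A z' v k ∧ (B.step z')^[k] v = w) := by
  constructor
  · rintro ⟨h1, h2⟩
    exact ⟨cut_good B A z z' h v k h1, by rw [← cut_run B A z z' h v k h1 k le_rfl]; exact h2⟩
  · rintro ⟨h1, h2⟩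
    have h' : ∀ x, A x → z' x = z x := fun x hx => (h x hx).symm
    exact ⟨cut_good B A z' z h' v k h1, by rw [← cut_run B A z' z h' v k h1 k le_rfl]; exact h2⟩

/-- the node before window `i` -/
def cstart {m : ℕ} (B : BP n V) (la : Fin m → Fin V) (i : Fin m) : Fin V :=
  if h : (i : ℕ) = 0 then B.src else la ⟨(i : ℕ) - 1, by have := i.2; omega⟩

/-- the number of steps in window `i` -/
def clen (w T i : ℕ) : ℕ := min ((i + 1) * w) T - min (i * w) T

end cut

theorem cut : ST_CUT := by
  classical
  intro n V T w m q s B W e io jj hw hm hT hR hW hio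
  -- the condition for window i
  let A : Fin m → Fin n → Prop := fun i x => ∀ l, e (jj i, l) ≠ x
  let P : (Fin m → Fin V) → Fin m → (Fin q → Fin s → Bool) → Prop := fun la i u =>
    cgood B (A i) (io u) (cstart B la i) (clen w T i) ∧
      (B.step (io u))^[clen w T i] (cstart B la i) = la i
  let F : (Fin m → Fin V) → Fin m → (Fin q → Fin s → Bool) → ℝ := fun la i u =>
    if P la i u then 1 else 0
  have hF1 : ∀ la i u, |F la i u| ≤ 1 := by
    intro la i u
    simp only [F]
    split_ifs <;> simp
  have hFind : ∀ (la : Fin m → Fin V) (i : Fin m) (u u' : Fin q → Fin s → Bool),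
      (∀ j', j' ≠ jj i → u j' = u' j') → F la i u = F la i u' := by
    intro la i u u' huu
    have hz : ∀ x, A i x → io u x = io u' x := by
      intro x hx
      apply hio
      intro p hp
      have : p.1 ≠ jj i := by
        intro hp1
        apply hx p.2
        rw [← hp1]
        exact hp
      rw [huu p.1 this]
    have := cut_iff B (A i) (io u) (io u') hz (cstart B la i) (la i) (clen w T i)
    simp only [F, P]
    rw [if_congr this rfl rfl]
  refine ⟨fun la => if B.out (la ⟨m - 1, by omega⟩) = true then 1 else 0,
    fun la j u => ∏ i ∈ univ.filter (fun i : Fin m => jj i = j), F la i u, ?_, ?_, ?_, ?_⟩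
  · intro la
    dsimp only
    split_ifs <;> simp
  · intro la j u
    rw [Finset.abs_prod]
    exact Finset.prod_le_one (fun i _ => abs_nonneg _) (fun i _ => hF1 la i u)
  · intro la j u u' huu
    apply Finset.prod_congr rfl
    intro i hi
    rw [Finset.mem_filter] at hi
    apply hFind
    intro j' hj'
    apply huu
    rw [← hi.2]
    exact hj'
  · intro u
    have hprod : ∀ la, (∏ j, ∏ i ∈ univ.filter (fun i : Fin m => jj i = j), F la i u) =
        ∏ i, F la i u := by
      intro la
      exact Finset.prod_fiberwise univ (fun i : Fin m => jj i) (fun i => F la i u)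
    simp only [hprod]
    set z := io u with hz
    -- the real trajectory
    let l0 : Fin m → Fin V := fun i => B.st z (min (((i : ℕ) + 1) * w) T)
    have hst0 : ∀ i : Fin m, cstart B l0 i = B.st z (min ((i : ℕ) * w) T) := by
      intro i
      unfold cstart
      split_ifs with h
      · rw [h]
        simp [BP.st]
      · have : (i : ℕ) - 1 + 1 = i := by omega
        simp only [l0, this]
    have hlen : ∀ i : ℕ, min (i * w) T + clen w T i = min ((i + 1) * w) T := by
      intro i
      unfold clen
      have : min (i * w) T ≤ min ((i + 1) * w) T :=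
        min_le_min_right _ (Nat.mul_le_mul_right _ (Nat.le_succ _))
      omega
    have hP0 : ∀ i, P l0 i u := by
      intro i
      refine ⟨?_, ?_⟩
      · intro t ht x hx l
        rw [hst0, ← cut_st_add] at hx
        have h1 := hlen (i : ℕ)
        have h2 : min ((i : ℕ) * w) T + t < min (((i : ℕ) + 1) * w) T := by omega
        have h3 : (i : ℕ) * w < T := by
          by_contra hcon
          push Not at hcon
          rw [min_eq_right hcon] at h2
          have := min_le_right (((i : ℕ) + 1) * w) T
          omega
        have h4 : min ((i : ℕ) * w) T = (i : ℕ) * w := min_eq_left h3.le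
        rw [h4] at hx h2
        have h5 : (i : ℕ) * w + t < ((i : ℕ) + 1) * w := lt_of_lt_of_le h2 (min_le_left _ _)
        have h6 : (i : ℕ) * w + t < T := lt_of_lt_of_le h2 (min_le_right _ _)
        have h7 : ((i : ℕ) * w + t) / w = i := by
          apply Nat.div_eq_of_lt_le
          · omega
          · rw [Nat.succ_mul] at *
            nlinarith
        have h8 := hR z _ x h6 hx
        rw [h7] at h8
        intro hh
        exact hW i i.2 l (by rw [hh]; exact h8)
      · rw [hst0, ← cut_st_add, hlen]
    have huniq : ∀ la, (∀ i, P la i u) → la = l0 := by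
      intro la hla
      have key : ∀ k : ℕ, ∀ hk : k < m, la ⟨k, hk⟩ = l0 ⟨k, hk⟩ := by
        intro k
        induction k with
        | zero =>
          intro hk
          have h := (hla ⟨0, hk⟩).2
          rw [← h]
          have hs : cstart B la ⟨0, hk⟩ = B.st z (min (0 * w) T) := by
            simp [cstart, BP.st]
          rw [hs, ← cut_st_add]
          simp only [l0]
          rw [hlen]
        | succ k ih =>
          intro hk
          have h := (hla ⟨k + 1, hk⟩).2
          rw [← h]
          have hs : cstart B la ⟨k + 1, hk⟩ = B.st z (min ((k + 1) * w) T) := by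
            have : cstart B la ⟨k + 1, hk⟩ = la ⟨k, by omega⟩ := by
              simp [cstart]
            rw [this, ih (by omega)]
          rw [hs, ← cut_st_add]
          simp only [l0]
          rw [hlen]
      funext i
      exact key i.1 i.2
    rw [Finset.sum_eq_single l0]
    · have h1 : ∏ i, F l0 i u = 1 := by
        apply Finset.prod_eq_one
        intro i _
        simp only [F]
        rw [if_pos (hP0 i)]
      rw [h1, mul_one]
      have h2 : l0 ⟨m - 1, by omega⟩ = B.st z T := by
        simp only [l0]
        rw [Nat.sub_add_cancel hm, min_eq_right hT]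
      rw [h2]
    · intro la _ hne
      have : ∃ i, ¬ P la i u := by
        by_contra hcon
        push Not at hcon
        exact hne (huniq la hcon)
      obtain ⟨i, hi⟩ := this
      have h0 : ∏ i, F la i u = 0 := by
        apply Finset.prod_eq_zero (Finset.mem_univ i)
        simp only [F]
        rw [if_neg hi]
      rw [h0, mul_zero]
    · intro h
      exact absurd (Finset.mem_univ _) h

end Pool.Helper52.BP
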