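import Pool.Agent.Helper52.BP.Sheet2
import Pool.Agent.Helper24.BP.CUT

/-! # Row CUT2 -/

set_option autoImplicit false

namespace Pool.Helper52.BP

open Finset

theorem cgood_congr {n V : ℕ} (B : BP n V) (A : Fin n → Prop) (z z' : Fin n → Bool) (v : Fin V)
    (k : ℕ) (h : ∀ t ≤ k, (B.step z)^[t] v = (B.step z')^[t] v) :
    cgood B A z v k ↔ cgood B A z' v k := by
  constructor
  · intro hg t ht x hx
    rw [← h t ht.le] at hx
    exact hg t ht x hx
  · intro hg t ht x hx
    rw [h t ht.le] at hx
    exact hg t ht x hx

theorem cut2 : ST_CUT2 := by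
  classical
  intro n V T w m q s B e io hw hm hT hmiss hio
  let A : Fin q → Fin n → Prop := fun j x => ∀ l, e (j, l) ≠ x
  let D : (Fin n → Bool) → Fin V → ℕ → Fin q → Prop := fun z v k j =>
    cgood B (A j) z v k ∧ ∀ j' < j, ¬ cgood B (A j') z v k
  let P : (Fin m → Fin V × Fin q) → Fin m → (Fin q → Fin s → Bool) → Prop := fun la i u =>
    D (io u) (cstart B (fun i => (la i).1) i) (clen w T i) (la i).2 ∧
      (B.step (io u))^[clen w T i] (cstart B (fun i => (la i).1) i) = (la i).1
  let F : (Fin m → Fin V × Fin q) → Fin m → (Fin q → Fin s → Bool) → ℝ := fun la i u =>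
    if P la i u then 1 else 0
  have hF1 : ∀ la i u, |F la i u| ≤ 1 := by
    intro la i u
    simp only [F]
    split_ifs <;> simp
  have hPimp : ∀ (la : Fin m → Fin V × Fin q) (i : Fin m) (u u' : Fin q → Fin s → Bool),
      (∀ j', j' ≠ (la i).2 → u j' = u' j') → P la i u → P la i u' := by
    intro la i u u' huu hP
    have hz : ∀ x, A (la i).2 x → io u x = io u' x := by
      intro x hx
      apply hio
      intro p hp
      have : p.1 ≠ (la i).2 := by
        intro hp1
        apply hx p.2
        rw [← hp1]
        exact hp
      rw [huu p.1 this]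
    obtain ⟨⟨h1, h2⟩, h3⟩ := hP
    have hrun := cut_run B (A (la i).2) (io u) (io u') hz _ _ h1
    refine ⟨⟨(cgood_congr B _ _ _ _ _ hrun).1 h1, fun j' hj' hc => h2 j' hj' ?_⟩, ?_⟩
    · exact (cgood_congr B _ _ _ _ _ hrun).2 hc
    · rw [← hrun _ le_rfl]
      exact h3
  have hFind : ∀ (la : Fin m → Fin V × Fin q) (i : Fin m) (u u' : Fin q → Fin s → Bool),
      (∀ j', j' ≠ (la i).2 → u j' = u' j') → F la i u = F la i u' := by
    intro la i u u' huu
    have : P la i u ↔ P la i u' :=
      ⟨hPimp la i u u' huu, hPimp la i u' u fun j' hj' => (huu j' hj').symm⟩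
    simp only [F]
    rw [if_congr this rfl rfl]
  refine ⟨fun la => if B.out (la ⟨m - 1, by omega⟩).1 = true then 1 else 0,
    fun la j u => ∏ i ∈ univ.filter (fun i : Fin m => (la i).2 = j), F la i u, ?_, ?_, ?_, ?_⟩
  · intro la
    dsimp only
    split_ifs <;> simp
  · intro la j u
    rw [Finset.abs_prod]
    exact Finset.prod_le_one (fun i _ => abs_nonneg _) (fun i _ => hF1 la i u)
  · intro la j u u' huu
    apply Finset.prod_congr rfl
    intro i hi
    rw [Finset.mem_filter] at hi
    apply hFind
    intro j' hj'
    apply huu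
    rw [← hi.2]
    exact hj'
  · intro u
    have hprod : ∀ la : Fin m → Fin V × Fin q,
        (∏ j, ∏ i ∈ univ.filter (fun i : Fin m => (la i).2 = j), F la i u) = ∏ i, F la i u := by
      intro la
      exact Finset.prod_fiberwise univ (fun i : Fin m => (la i).2) (fun i => F la i u)
    simp only [hprod]
    set z := io u with hz
    have hlen : ∀ i : ℕ, min (i * w) T + clen w T i = min ((i + 1) * w) T := by
      intro i
      unfold clen
      have : min (i * w) T ≤ min ((i + 1) * w) T :=
        min_le_min_right _ (Nat.mul_le_mul_right _ (Nat.le_succ _))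
      omega
    -- the least missed block of a window
    have hex : ∀ i : Fin m, ∃ j : Fin q, D z (B.st z (min ((i : ℕ) * w) T)) (clen w T i) j := by
      intro i
      obtain ⟨j1, hj1⟩ := hmiss u i i.2
      have hgood : cgood B (A j1) z (B.st z (min ((i : ℕ) * w) T)) (clen w T i) := by
        intro t ht x hx l
        rw [← cut_st_add] at hx
        have h1 := hlen (i : ℕ)
        have h2 : min ((i : ℕ) * w) T + t < min (((i : ℕ) + 1) * w) T := by omega
        have h3 : (i : ℕ) * w < T := by
          by_contra hcon
          push Not at hcon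
          rw [min_eq_right hcon] at h2
          have := min_le_right (((i : ℕ) + 1) * w) T
          omega
        have h4 : min ((i : ℕ) * w) T = (i : ℕ) * w := min_eq_left h3.le
        rw [h4] at hx h2
        have h5 : (i : ℕ) * w + t < ((i : ℕ) + 1) * w := lt_of_lt_of_le h2 (min_le_left _ _)
        have h6 : (i : ℕ) * w + t < T := lt_of_lt_of_le h2 (min_le_right _ _)
        have h7 : ((i : ℕ) * w + t) / w = i := by
          apply Nat.div_eq_of_lt_le
          · omega
          · rw [Nat.succ_mul] at *
            nlinarith
        intro hh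
        exact hj1 _ x h6 h7 hx l hh.symm
      obtain ⟨j, hj, hmin⟩ := WellFounded.has_min (wellFounded_lt (α := Fin q))
        {j | cgood B (A j) z (B.st z (min ((i : ℕ) * w) T)) (clen w T i)} ⟨j1, hgood⟩
      exact ⟨j, hj, fun j' hj' hc => hmin j' hc hj'⟩
    choose j0 hj0 using hex
    -- the real trajectory
    let l0 : Fin m → Fin V × Fin q := fun i => (B.st z (min (((i : ℕ) + 1) * w) T), j0 i)
    have hst0 : ∀ i : Fin m, cstart B (fun i => (l0 i).1) i = B.st z (min ((i : ℕ) * w) T) := by
      intro i
      unfold cstart
      split_ifs with h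
      · rw [h]
        simp [BP.st]
      · have : (i : ℕ) - 1 + 1 = i := by omega
        simp only [l0, this]
    have hP0 : ∀ i, P l0 i u := by
      intro i
      refine ⟨?_, ?_⟩
      · rw [hst0]
        exact hj0 i
      · rw [hst0, ← cut_st_add, hlen]
    have huniq : ∀ la, (∀ i, P la i u) → la = l0 := by
      intro la hla
      have key : ∀ k : ℕ, ∀ hk : k < m, (la ⟨k, hk⟩).1 = (l0 ⟨k, hk⟩).1 ∧
          cstart B (fun i => (la i).1) ⟨k, hk⟩ = B.st z (min (k * w) T) := by
        intro k
        induction k with
        | zero =>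
          intro hk
          have hs : cstart B (fun i => (la i).1) ⟨0, hk⟩ = B.st z (min (0 * w) T) := by
            simp [cstart, BP.st]
          refine ⟨?_, hs⟩
          have h := (hla ⟨0, hk⟩).2
          rw [← h, hs, ← cut_st_add]
          simp only [l0]
          rw [hlen]
        | succ k ih =>
          intro hk
          have hs : cstart B (fun i => (la i).1) ⟨k + 1, hk⟩ = B.st z (min ((k + 1) * w) T) := by
            have : cstart B (fun i => (la i).1) ⟨k + 1, hk⟩ = (la ⟨k, by omega⟩).1 := by
              simp [cstart]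
            rw [this, (ih (by omega)).1]
          refine ⟨?_, hs⟩
          have h := (hla ⟨k + 1, hk⟩).2
          rw [← h, hs, ← cut_st_add]
          simp only [l0]
          rw [hlen]
      funext i
      have hk := key i.1 i.2
      apply Prod.ext
      · exact hk.1
      · have h1 := (hla i).1
        have h2 : cstart B (fun i => (la i).1) i = B.st z (min ((i : ℕ) * w) T) := hk.2
        rw [h2] at h1
        have h3 := hj0 i
        show (la i).2 = j0 i
        rcases lt_trichotomy (la i).2 (j0 i) with h4 | h4 | h4
        · exact absurd h1.1 (h3.2 _ h4)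
        · exact h4
        · exact absurd h3.1 (h1.2 _ h4)
    rw [Finset.sum_eq_single l0]
    · have h1 : ∏ i, F l0 i u = 1 := by
        apply Finset.prod_eq_one
        intro i _
        simp only [F]
        rw [if_pos (hP0 i)]
      rw [h1, mul_one]
      have h2 : (l0 ⟨m - 1, by omega⟩).1 = B.st z T := by
        simp only [l0]
        rw [Nat.sub_add_cancel hm, min_eq_right hT]
      rw [h2]
    · intro la _ hne
      have : ∃ i, ¬ P la i u := by
        by_contra hcon
        push Not at hcon
        exact hne (huniq la hcon)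
      obtain ⟨i, hi⟩ := this
      have h0 : ∏ i, F la i u = 0 := by
        apply Finset.prod_eq_zero (Finset.mem_univ i)
        simp only [F]
        rw [if_neg hi]
      rw [h0, mul_zero]
    · intro h
      exact absurd (Finset.mem_univ _) h

end Pool.Helper52.BP
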